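import Mathlib

/-!
# Z.-W. Sun's valuation conjectures for weighted alternating sums of `A_k(x)` and `D_k(x)^3`

Both questions of the problem are answered in the affirmative.

The proof has three parts.
* With `b i k = C(k,i) C(k+i,i)`, products `b i k * b j k` are integral combinations of the `b m k`,
  and `∑_{k<n} (2k+1) (-1)^k b i k` is divisible by `n`.  So the two sums are `n` times a polynomial
  `P ∈ ℤ[x]`.
* At `x = 1/4` (resp. `x = -1/4`) the sum is `n^2` times a value of a polynomial in `ℤ[x]` :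
  for the cubes of the `D_k` one has the closed form
  `∑_{k<n} (2k+1)(-1)^k D_k(-1/4)^3 = 4 n^2 (-1)^n D_n D_{n-1} (D_n - D_{n-1})`.
* Hence `P = n Q + (4x ∓ 1) V` in every commutative ring.
-/

namespace Pool.Agent.Results.MP_2869d0_nt.WeightedAlternatingSums

open Finset Polynomial

/-- `A_n(x) = ∑_{k ≤ n} C(n,k)^2 C(n+k,k)^2 x^k`. -/
def A {R : Type*} [CommRing R] (n : ℕ) (x : R) : R :=
  ∑ k ∈ range (n + 1), (n.choose k : R) ^ 2 * ((n + k).choose k : R) ^ 2 * x ^ k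

/-- `D_n(x) = ∑_{k ≤ n} C(n,k) C(n+k,k) x^k`. -/
def D {R : Type*} [CommRing R] (n : ℕ) (x : R) : R :=
  ∑ k ∈ range (n + 1), (n.choose k : R) * ((n + k).choose k : R) * x ^ k

/-- `b i k = C(k,i) C(k+i,i)`. -/
def b (i k : ℕ) : ℤ := (k.choose i : ℤ) * ((k + i).choose i : ℤ)

lemma b_zero (k : ℕ) : b 0 k = 1 := by simp [b]

lemma b_eq_zero {i k : ℕ} (h : k < i) : b i k = 0 := by
  simp [b, Nat.choose_eq_zero_of_lt h]

/-- `(k - i) C(k,i) = (i+1) C(k,i+1)` over `ℚ`, for all `i k`. -/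
lemma choose_succ_q (k i : ℕ) :
    ((i : ℚ) + 1) * (k.choose (i + 1) : ℚ) = ((k : ℚ) - i) * (k.choose i : ℚ) := by
  rcases lt_or_ge k i with h | h
  · rw [Nat.choose_eq_zero_of_lt h, Nat.choose_eq_zero_of_lt (by omega)]; simp
  · have h1 := Nat.choose_succ_right_eq k i
    have h2 : ((k.choose (i + 1) * (i + 1) : ℕ) : ℚ) = ((k.choose i * (k - i) : ℕ) : ℚ) := by
      rw [h1]
    push_cast [Nat.cast_sub h] at h2
    linarith

/-- `(k+1-i) C(k+1,i) = (k+1) C(k,i)`. -/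
lemma choose_top_q (k i : ℕ) :
    ((k : ℚ) + 1 - i) * ((k + 1).choose i : ℚ) = ((k : ℚ) + 1) * (k.choose i : ℚ) := by
  rcases lt_or_ge k i with h | h
  · rw [Nat.choose_eq_zero_of_lt h]
    rcases eq_or_lt_of_le (Nat.succ_le_of_lt h) with h' | h'
    · have : (i : ℚ) = k + 1 := by rw [← h']; push_cast; ring
      rw [this]; ring
    · rw [Nat.choose_eq_zero_of_lt (by omega : k + 1 < i)]; simp
  · have h1 := Nat.choose_mul_succ_eq k i
    have h2 : ((k.choose i * (k + 1) : ℕ) : ℚ) = (((k + 1).choose i * (k + 1 - i) : ℕ) : ℚ) := by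
      rw [h1]
    push_cast [Nat.cast_sub (by omega : i ≤ k + 1)] at h2
    linarith

/-- `(i+1) C(k+i+1,i+1) = (k+i+1) C(k+i,i)`. -/
lemma choose_diag_q (k i : ℕ) :
    ((i : ℚ) + 1) * ((k + (i + 1)).choose (i + 1) : ℚ) =
      ((k : ℚ) + i + 1) * ((k + i).choose i : ℚ) := by
  have h1 := Nat.add_one_mul_choose_eq (k + i) i
  have h2 : (((k + i + 1) * (k + i).choose i : ℕ) : ℚ) =
      (((k + i + 1).choose (i + 1) * (i + 1) : ℕ) : ℚ) := by rw [h1]
  push_cast at h2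
  have h3 : k + (i + 1) = k + i + 1 := by ring
  rw [h3]
  linarith

lemma b_succ_q (i k : ℕ) :
    ((i : ℚ) + 1) ^ 2 * (b (i + 1) k : ℚ) =
      ((k : ℚ) * (k + 1) - (i : ℚ) * (i + 1)) * (b i k : ℚ) := by
  have h1 := choose_succ_q k i
  have h2 := choose_diag_q k i
  simp only [b]
  push_cast
  linear_combination (((i : ℚ) + 1) * ((k + (i + 1)).choose (i + 1) : ℚ)) * h1 +
    (((k : ℚ) - i) * (k.choose i : ℚ)) * h2

/-- coefficients of the product formula -/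
def β (m i j : ℕ) : ℤ := (m.choose j : ℤ) * ((i + j).choose m : ℤ) * ((m + i).choose m : ℤ)

lemma β_succ (m i j : ℕ) :
    ((m : ℚ) + 1) ^ 2 * (β (m + 1) i (j + 1) : ℚ) =
      (β m i j : ℚ) * ((i : ℚ) + j + 1) ^ 2 +
        (β m i (j + 1) : ℚ) * (((i : ℚ) + j + 1) * (i + j + 2) - (m : ℚ) * (m + 1)) := by
  have e1 := choose_succ_q m j
  have e2 := choose_top_q (i + j) m
  have e3 : ((m : ℚ) + 1) * ((i + j + 1).choose (m + 1) : ℚ) =
      ((i : ℚ) + j + 1) * ((i + j).choose m : ℚ) := by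
    have h1 := Nat.add_one_mul_choose_eq (i + j) m
    have h2 : (((i + j + 1) * (i + j).choose m : ℕ) : ℚ) =
      (((i + j + 1).choose (m + 1) * (m + 1) : ℕ) : ℚ) := by rw [h1]
    push_cast at h2
    linarith
  have e4 : ((m : ℚ) + 1) * ((m + 1 + i).choose (m + 1) : ℚ) =
      ((m : ℚ) + 1 + i) * ((m + i).choose m : ℚ) := by
    have h1 := Nat.add_one_mul_choose_eq (m + i) m
    have h2 : (((m + i + 1) * (m + i).choose m : ℕ) : ℚ) =
      (((m + i + 1).choose (m + 1) * (m + 1) : ℕ) : ℚ) := by rw [h1]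
    push_cast at h2
    rw [show m + 1 + i = m + i + 1 by ring]
    linarith
  have e5 : ((m + 1).choose (j + 1) : ℚ) = (m.choose j : ℚ) + (m.choose (j + 1) : ℚ) := by
    rw [Nat.choose_succ_succ]; push_cast; ring
  simp only [β]
  push_cast
  push_cast at e2
  rw [e5, show i + (j + 1) = i + j + 1 by ring]
  generalize (m.choose j : ℚ) = a at *
  generalize (m.choose (j + 1) : ℚ) = a' at *
  generalize ((i + j).choose m : ℚ) = u at *
  generalize ((i + j + 1).choose m : ℚ) = v at *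
  generalize ((i + j + 1).choose (m + 1) : ℚ) = w at *
  generalize ((m + i).choose m : ℚ) = z at *
  generalize ((m + 1 + i).choose (m + 1) : ℚ) = z' at *
  linear_combination ((a + a') * ((m : ℚ) + 1) * z') * e3 + ((a + a') * u * ((i : ℚ) + j + 1)) * e4
    - (a' * z * ((i : ℚ) + j + 2 + m)) * e2 - (u * z * ((i : ℚ) + j + 1)) * e1

lemma β_zero (m i : ℕ) :
    ((m : ℚ) + 1) ^ 2 * (β (m + 1) i 0 : ℚ) =
      (β m i 0 : ℚ) * ((i : ℚ) * (i + 1) - (m : ℚ) * (m + 1)) := by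
  have e1 := choose_succ_q i m
  have e4 : ((m : ℚ) + 1) * ((m + 1 + i).choose (m + 1) : ℚ) =
      ((m : ℚ) + 1 + i) * ((m + i).choose m : ℚ) := by
    have h1 := Nat.add_one_mul_choose_eq (m + i) m
    have h2 : (((m + i + 1) * (m + i).choose m : ℕ) : ℚ) =
      (((m + i + 1).choose (m + 1) * (m + 1) : ℕ) : ℚ) := by rw [h1]
    push_cast at h2
    rw [show m + 1 + i = m + i + 1 by ring]
    linarith
  simp only [β, Nat.choose_zero_right, add_zero]
  push_cast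
  generalize ((i).choose m : ℚ) = u at *
  generalize ((i).choose (m + 1) : ℚ) = w at *
  generalize ((m + i).choose m : ℚ) = z at *
  generalize ((m + 1 + i).choose (m + 1) : ℚ) = z' at *
  linear_combination (((m : ℚ) + 1) * z') * e1 + (((i : ℚ) - m) * u) * e4

/-- The product formula, over `ℚ`. -/
lemma b_mul_b_q (m i k : ℕ) :
    (b m k : ℚ) * (b i k : ℚ) = ∑ j ∈ range (m + 1), (β m i j : ℚ) * (b (i + j) k : ℚ) := by
  induction m with
  | zero => simp [b_zero, β]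
  | succ m ih =>
    have hm : ((m : ℚ) + 1) ^ 2 ≠ 0 := by positivity
    apply mul_left_cancel₀ hm
    have h1 := b_succ_q m k
    have h2 : ((m : ℚ) + 1) ^ 2 * ((b (m + 1) k : ℚ) * (b i k : ℚ)) =
        ∑ j ∈ range (m + 1), (β m i j : ℚ) *
          (((k : ℚ) * (k + 1) - (m : ℚ) * (m + 1)) * (b (i + j) k : ℚ)) := by
      calc ((m : ℚ) + 1) ^ 2 * ((b (m + 1) k : ℚ) * (b i k : ℚ))
          = (((k : ℚ) * (k + 1) - (m : ℚ) * (m + 1))) * ((b m k : ℚ) * (b i k : ℚ)) := by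
            linear_combination (b i k : ℚ) * h1
        _ = _ := by
            rw [ih, mul_sum]
            refine sum_congr rfl fun j _ => by ring
    have h3 : ∀ j ∈ range (m + 1), (β m i j : ℚ) *
          (((k : ℚ) * (k + 1) - (m : ℚ) * (m + 1)) * (b (i + j) k : ℚ)) =
        (β m i j : ℚ) * ((i : ℚ) + j + 1) ^ 2 * (b (i + j + 1) k : ℚ) +
        (β m i j : ℚ) * (((i : ℚ) + j) * (i + j + 1) - (m : ℚ) * (m + 1)) * (b (i + j) k : ℚ) := by
      intro j _
      have h4 := b_succ_q (i + j) k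
      push_cast at h4
      linear_combination (-(β m i j : ℚ)) * h4
    rw [h2, sum_congr rfl h3, sum_add_distrib]
    have h5 : ∑ j ∈ range (m + 1), (β m i j : ℚ) *
        (((i : ℚ) + j) * (i + j + 1) - (m : ℚ) * (m + 1)) * (b (i + j) k : ℚ) =
        ∑ j ∈ range (m + 1), (β m i (j + 1) : ℚ) *
        (((i : ℚ) + j + 1) * (i + j + 2) - (m : ℚ) * (m + 1)) * (b (i + j + 1) k : ℚ) +
        (β m i 0 : ℚ) * ((i : ℚ) * (i + 1) - (m : ℚ) * (m + 1)) * (b i k : ℚ) := by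
      have h6 : ∑ j ∈ range (m + 2), (β m i j : ℚ) *
        (((i : ℚ) + j) * (i + j + 1) - (m : ℚ) * (m + 1)) * (b (i + j) k : ℚ) =
        ∑ j ∈ range (m + 1), (β m i j : ℚ) *
        (((i : ℚ) + j) * (i + j + 1) - (m : ℚ) * (m + 1)) * (b (i + j) k : ℚ) := by
        rw [sum_range_succ]
        simp [β]
      rw [← h6, sum_range_succ']
      congr 1
      · refine sum_congr rfl fun j _ => ?_
        push_cast
        rw [show i + (j + 1) = i + j + 1 by ring]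
        ring
      · push_cast
        simp
    rw [h5]
    conv_rhs => rw [sum_range_succ', mul_add, mul_sum]
    rw [← add_assoc, ← sum_add_distrib]
    congr 1
    · refine sum_congr rfl fun j _ => ?_
      have h7 := β_succ m i j
      rw [show i + (j + 1) = i + j + 1 by ring]
      linear_combination (-(b (i + j + 1) k : ℚ)) * h7
    · have h8 := β_zero m i
      rw [add_zero]
      linear_combination (-(b i k : ℚ)) * h8

/-- The product formula, over `ℤ`. -/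
lemma b_mul_b (m i k : ℕ) :
    b m k * b i k = ∑ j ∈ range (m + 1), β m i j * b (i + j) k := by
  have h := b_mul_b_q m i k
  exact_mod_cast h

/-- Summation of `(2k+1)(-1)^k b i k`. -/
lemma sum_b (i N : ℕ) :
    ∑ k ∈ range (N + 1), (2 * (k : ℤ) + 1) * (-1) ^ k * b i k =
      (-1) ^ N * ((N : ℤ) + 1) * ((N.choose i : ℤ) * ((N + 1 + i).choose i : ℤ)) := by
  induction N with
  | zero =>
    rcases Nat.eq_zero_or_pos i with rfl | hi
    · simp [b]
    · simp [b, Nat.choose_eq_zero_of_lt hi]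
  | succ N ih =>
    rw [sum_range_succ, ih]
    have e1 := choose_top_q N i
    have e2 := choose_top_q (N + 1 + i) i
    have : (((-1) ^ N * ((N : ℤ) + 1) * ((N.choose i : ℤ) * ((N + 1 + i).choose i : ℤ)) +
      (2 * ((N + 1 : ℕ) : ℤ) + 1) * (-1) ^ (N + 1) * b i (N + 1) : ℤ) : ℚ) =
      (((-1) ^ (N + 1) * (((N + 1 : ℕ) : ℤ) + 1) *
        (((N + 1).choose i : ℤ) * ((N + 1 + 1 + i).choose i : ℤ)) : ℤ) : ℚ) := by
      simp only [b]
      push_cast
      push_cast at e2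
      rw [show N + 1 + 1 + i = N + 1 + i + 1 by ring, pow_succ]
      linear_combination (-(-1) ^ N * ((N + 1 + i).choose i : ℚ)) * e1 +
        ((-1) ^ N * ((N + 1).choose i : ℚ)) * e2
    exact_mod_cast this

/-- functions `f` with `n ∣ ∑_{k<n} (2k+1)(-1)^k f k` for all `n` -/
def Good (f : ℕ → ℤ) : Prop :=
  ∀ n : ℕ, (n : ℤ) ∣ ∑ k ∈ range n, (2 * (k : ℤ) + 1) * (-1) ^ k * f k

lemma good_b (i : ℕ) : Good (b i) := by
  intro n
  rcases n with _ | N
  · simp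
  · rw [sum_b]
    push_cast
    exact Dvd.intro_left ((-1) ^ N * ((N.choose i : ℤ) * ((N + 1 + i).choose i : ℤ))) (by ring)

lemma Good.sum {ι : Type*} (s : Finset ι) (c : ι → ℤ) (f : ι → ℕ → ℤ) (hf : ∀ i ∈ s, Good (f i)) :
    Good (fun k => ∑ i ∈ s, c i * f i k) := by
  intro n
  have : ∑ k ∈ range n, (2 * (k : ℤ) + 1) * (-1) ^ k * ∑ i ∈ s, c i * f i k =
      ∑ i ∈ s, c i * ∑ k ∈ range n, (2 * (k : ℤ) + 1) * (-1) ^ k * f i k := by
    simp only [mul_sum]
    rw [sum_comm]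
    refine sum_congr rfl fun i _ => sum_congr rfl fun k _ => by ring
  rw [this]
  exact dvd_sum fun i hi => Dvd.dvd.mul_left (hf i hi n) _

lemma good_bb (i j : ℕ) : Good (fun k => b i k * b j k) := by
  simp only [b_mul_b]
  exact Good.sum _ _ _ fun l _ => good_b _

lemma good_bbb (i j l : ℕ) : Good (fun k => b i k * b j k * b l k) := by
  have : (fun k => b i k * b j k * b l k) =
      fun k => ∑ t ∈ range (i + 1), β i j t * (b (j + t) k * b l k) := by
    funext k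
    rw [b_mul_b, sum_mul]
    refine sum_congr rfl fun t _ => by ring
  rw [this]
  exact Good.sum _ _ (fun t k => b (j + t) k * b l k) fun t _ => good_bb _ _

/-! ### Divisibility by `n` in `ℤ[X]` -/

/-- `A` as a polynomial -/
noncomputable def Ap (k : ℕ) : ℤ[X] := A k X

/-- `D` as a polynomial -/
noncomputable def Dp (k : ℕ) : ℤ[X] := D k X

lemma A_eq {R : Type*} [CommRing R] (k M : ℕ) (h : k < M) (x : R) :
    A k x = ∑ i ∈ range M, ((b i k * b i k : ℤ) : R) * x ^ i := by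
  have h1 : A k x = ∑ i ∈ range (k + 1), ((b i k * b i k : ℤ) : R) * x ^ i := by
    refine sum_congr rfl fun i _ => ?_
    simp only [b]
    push_cast
    ring
  rw [h1]
  refine sum_subset (range_subset_range.2 (by omega)) fun i _ hi => ?_
  rw [b_eq_zero (by simpa using hi)]
  simp

lemma D_eq {R : Type*} [CommRing R] (k M : ℕ) (h : k < M) (x : R) :
    D k x = ∑ i ∈ range M, ((b i k : ℤ) : R) * x ^ i := by
  have h1 : D k x = ∑ i ∈ range (k + 1), ((b i k : ℤ) : R) * x ^ i := by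
    refine sum_congr rfl fun i _ => ?_
    simp only [b]
    push_cast
    ring
  rw [h1]
  refine sum_subset (range_subset_range.2 (by omega)) fun i _ hi => ?_
  rw [b_eq_zero (by simpa using hi)]
  simp

lemma aeval_Ap {R : Type*} [CommRing R] (k : ℕ) (x : R) : aeval x (Ap k) = A k x := by
  simp [Ap, A]

lemma aeval_Dp {R : Type*} [CommRing R] (k : ℕ) (x : R) : aeval x (Dp k) = D k x := by
  simp [Dp, D]

lemma exists_P_A (n : ℕ) : ∃ P : ℤ[X],
    (n : ℤ[X]) * P = ∑ k ∈ range n, (2 * (k : ℤ[X]) + 1) * (-1) ^ k * Ap k := by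
  have h1 : ∑ k ∈ range n, (2 * (k : ℤ[X]) + 1) * (-1) ^ k * Ap k =
      ∑ i ∈ range n, ((∑ k ∈ range n, (2 * (k : ℤ) + 1) * (-1) ^ k * (b i k * b i k) : ℤ) : ℤ[X])
        * X ^ i := by
    have : ∀ k ∈ range n, (2 * (k : ℤ[X]) + 1) * (-1) ^ k * Ap k =
        ∑ i ∈ range n, (2 * (k : ℤ[X]) + 1) * (-1) ^ k *
          (((b i k * b i k : ℤ) : ℤ[X]) * X ^ i) := by
      intro k hk
      rw [Ap, A_eq k n (mem_range.1 hk), mul_sum]
    rw [sum_congr rfl this, sum_comm]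
    refine sum_congr rfl fun i _ => ?_
    push_cast
    rw [sum_mul]
    refine sum_congr rfl fun k _ => by ring
  rw [h1]
  have h2 : (n : ℤ[X]) ∣ ∑ i ∈ range n,
      ((∑ k ∈ range n, (2 * (k : ℤ) + 1) * (-1) ^ k * (b i k * b i k) : ℤ) : ℤ[X]) * X ^ i := by
    refine dvd_sum fun i _ => Dvd.dvd.mul_right ?_ _
    obtain ⟨c, hc⟩ := good_bb i i n
    rw [hc]
    exact ⟨(c : ℤ[X]), by push_cast; ring⟩
  obtain ⟨P, hP⟩ := h2
  exact ⟨P, hP.symm⟩

lemma exists_P_D (n : ℕ) : ∃ P : ℤ[X],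
    (n : ℤ[X]) * P = ∑ k ∈ range n, (2 * (k : ℤ[X]) + 1) * (-1) ^ k * Dp k ^ 3 := by
  have h1 : ∑ k ∈ range n, (2 * (k : ℤ[X]) + 1) * (-1) ^ k * Dp k ^ 3 =
      ∑ i ∈ range n, ∑ j ∈ range n, ∑ l ∈ range n,
        ((∑ k ∈ range n, (2 * (k : ℤ) + 1) * (-1) ^ k * (b i k * b j k * b l k) : ℤ) : ℤ[X])
        * X ^ (i + j + l) := by
    have : ∀ k ∈ range n, (2 * (k : ℤ[X]) + 1) * (-1) ^ k * Dp k ^ 3 =
        ∑ i ∈ range n, ∑ j ∈ range n, ∑ l ∈ range n, (2 * (k : ℤ[X]) + 1) * (-1) ^ k *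
          (((b i k * b j k * b l k : ℤ) : ℤ[X]) * X ^ (i + j + l)) := by
      intro k hk
      rw [Dp, D_eq k n (mem_range.1 hk), pow_succ, pow_two, sum_mul_sum, sum_mul, mul_sum]
      refine sum_congr rfl fun i _ => ?_
      rw [sum_mul, mul_sum]
      refine sum_congr rfl fun j _ => ?_
      rw [mul_sum, mul_sum]
      refine sum_congr rfl fun l _ => ?_
      push_cast
      ring
    rw [sum_congr rfl this, sum_comm]
    refine sum_congr rfl fun i _ => ?_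
    rw [sum_comm]
    refine sum_congr rfl fun j _ => ?_
    rw [sum_comm]
    refine sum_congr rfl fun l _ => ?_
    push_cast
    rw [sum_mul]
    refine sum_congr rfl fun k _ => by ring
  rw [h1]
  have h2 : (n : ℤ[X]) ∣ ∑ i ∈ range n, ∑ j ∈ range n, ∑ l ∈ range n,
        ((∑ k ∈ range n, (2 * (k : ℤ) + 1) * (-1) ^ k * (b i k * b j k * b l k) : ℤ) : ℤ[X])
        * X ^ (i + j + l) := by
    refine dvd_sum fun i _ => dvd_sum fun j _ => dvd_sum fun l _ => Dvd.dvd.mul_right ?_ _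
    obtain ⟨c, hc⟩ := good_bbb i j l n
    rw [hc]
    exact ⟨(c : ℤ[X]), by push_cast; ring⟩
  obtain ⟨P, hP⟩ := h2
  exact ⟨P, hP.symm⟩

/-! ### Vanishing at `ε/4` -/

lemma hom_eval {R : Type*} [CommRing R] (T : ℤ[X]) (x : R) (N : ℕ) (hN : T.natDegree ≤ N) :
    (4 : R) ^ N * aeval x T =
      ∑ m ∈ range (N + 1), ((T.coeff m : ℤ) : R) * 4 ^ (N - m) * (4 * x) ^ m := by
  rw [aeval_eq_sum_range' (Nat.lt_succ_of_le hN), mul_sum]
  refine sum_congr rfl fun m hm => ?_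
  have : m ≤ N := by simpa [Nat.lt_succ_iff] using hm
  rw [mul_pow, zsmul_eq_mul, ← Nat.sub_add_cancel this, pow_add, Nat.sub_add_cancel this]
  ring

lemma dvd_of_root (T : ℤ[X]) (ε : ℤ) (hε : ε * ε = 1) (hT : aeval ((ε : ℚ) / 4) T = 0)
    {R : Type*} [CommRing R] (x : R) : (4 * x - (ε : R)) ∣ aeval x T := by
  set N := T.natDegree
  have h1 := hom_eval T x N le_rfl
  have h2 := hom_eval T ((ε : ℚ) / 4) N le_rfl
  rw [hT, mul_zero, show (4 : ℚ) * ((ε : ℚ) / 4) = (ε : ℚ) by ring] at h2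
  have h3 : ∑ m ∈ range (N + 1), T.coeff m * 4 ^ (N - m) * ε ^ m = 0 := by
    have : ((∑ m ∈ range (N + 1), T.coeff m * 4 ^ (N - m) * ε ^ m : ℤ) : ℚ) = 0 := by
      push_cast
      exact h2.symm
    exact_mod_cast this
  have h4 : ((∑ m ∈ range (N + 1), T.coeff m * 4 ^ (N - m) * ε ^ m : ℤ) : R) = 0 := by
    rw [h3]; simp
  push_cast at h4
  have h5 : (4 * x - (ε : R)) ∣ (4 : R) ^ N * aeval x T := by
    rw [h1, ← sub_zero (∑ m ∈ range (N + 1), _), ← h4, ← sum_sub_distrib]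
    refine dvd_sum fun m _ => ?_
    rw [← mul_sub]
    exact Dvd.dvd.mul_left (sub_dvd_pow_sub_pow _ _ _) _
  have h6 : IsCoprime (4 * x - (ε : R)) ((4 : R) ^ N) := by
    refine IsCoprime.pow_right ⟨-(ε : R), (ε : R) * x, ?_⟩
    have : (ε : R) * ε = 1 := by exact_mod_cast congrArg (Int.cast : ℤ → R) hε
    linear_combination this
  exact h6.dvd_of_dvd_mul_left h5

/-- If the value at `ε/4` of `P` is `n` times the value of `Q`, then `P(x) ∈ (n, 4x - ε)`. -/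
lemma key (P Q : ℤ[X]) (ε : ℤ) (hε : ε * ε = 1) (n : ℕ)
    (h : aeval ((ε : ℚ) / 4) P = n * aeval ((ε : ℚ) / 4) Q)
    {R : Type*} [CommRing R] (x : R) :
    ∃ U V : R, aeval x P = n * U + (4 * x - (ε : R)) * V := by
  have h0 : aeval ((ε : ℚ) / 4) (P - (n : ℤ[X]) * Q) = 0 := by
    simp [h]
  obtain ⟨V, hV⟩ := dvd_of_root (P - (n : ℤ[X]) * Q) ε hε h0 x
  refine ⟨aeval x Q, V, ?_⟩
  rw [← hV]
  simp

/-! ### The value at `1/4` of the sum of the `A_k` -/

/-- The summand `h(n,k)` -/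
noncomputable def hh (n k : ℕ) : ℚ :=
  2 * n * (3 * ((k : ℚ) + 1) ^ 2 - (n : ℚ) ^ 2) * (((n : ℚ) - k) * (b k n : ℚ)) ^ 2 /
    (((k : ℚ) + 1) ^ 3 * 4 ^ (k + 1))

lemma b_top_q (n k : ℕ) :
    ((n : ℚ) + 1 - k) * (b k (n + 1) : ℚ) = ((n : ℚ) + 1 + k) * (b k n : ℚ) := by
  have e1 := choose_top_q n k
  have e2 := choose_top_q (n + k) k
  simp only [b]
  push_cast
  push_cast at e2
  rw [show n + 1 + k = n + k + 1 by ring]
  have e3 : ((n : ℚ) + 1) ≠ 0 := by positivity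
  have e4 : ((n : ℚ) + 1) * ((n + k + 1).choose k : ℚ) =
      ((n : ℚ) + k + 1) * ((n + k).choose k : ℚ) := by linear_combination e2
  apply mul_left_cancel₀ e3
  linear_combination (((n : ℚ) + 1) * ((n + k + 1).choose k : ℚ)) * e1 +
    (((n : ℚ) + 1) * (n.choose k : ℚ)) * e4

lemma hh_rec (n k : ℕ) :
    hh (n + 1) k + hh n k = (2 * n + 1) * ((2 * k + 1) * (b k n : ℚ) ^ 2 / 4 ^ k -
      2 * ((k : ℚ) + 1) * (b (k + 1) n : ℚ) ^ 2 / 4 ^ (k + 1)) := by
  have e1 := b_top_q n k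
  have e2 := b_succ_q k n
  have hk : ((k : ℚ) + 1) ≠ 0 := by positivity
  have h4 : (4 : ℚ) ^ k ≠ 0 := by positivity
  have e3 : (b (k + 1) n : ℚ) = ((n : ℚ) * (n + 1) - (k : ℚ) * (k + 1)) * (b k n : ℚ) /
      ((k : ℚ) + 1) ^ 2 := by
    rw [eq_div_iff (by positivity)]
    linear_combination e2
  unfold hh
  push_cast
  rw [e1, e3, pow_succ (4 : ℚ) k]
  field_simp
  ring

lemma hh_zero (k : ℕ) : hh 0 k = 0 := by simp [hh]

lemma hh_eq_zero {n k : ℕ} (h : n ≤ k) : hh n k = 0 := by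
  unfold hh
  rcases eq_or_lt_of_le h with rfl | h
  · simp
  · simp [b_eq_zero h]

lemma tele (n M : ℕ) :
    ∑ k ∈ range M, ((2 * (k : ℚ) + 1) * (b k n : ℚ) ^ 2 / 4 ^ k -
      2 * ((k : ℚ) + 1) * (b (k + 1) n : ℚ) ^ 2 / 4 ^ (k + 1)) =
    ∑ k ∈ range M, (b k n : ℚ) ^ 2 / 4 ^ k - 2 * M * (b M n : ℚ) ^ 2 / 4 ^ M := by
  induction M with
  | zero => simp
  | succ M ih =>
    rw [sum_range_succ, ih, sum_range_succ]
    push_cast
    ring

/-- `H(n) = ∑_k h(n,k)` -/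
noncomputable def H (n M : ℕ) : ℚ := ∑ k ∈ range M, hh n k

lemma H_rec (n M : ℕ) (h : n < M) :
    H (n + 1) M + H n M = (2 * n + 1) * A n (1 / 4 : ℚ) := by
  unfold H
  rw [← sum_add_distrib]
  simp only [hh_rec]
  rw [← mul_sum, tele, b_eq_zero h, A_eq n M h]
  congr 1
  simp only [Int.cast_zero]
  rw [show (2 * (M : ℚ) * 0 ^ 2 / 4 ^ M) = 0 by simp, sub_zero]
  refine sum_congr rfl fun k _ => ?_
  rw [div_pow, one_pow]
  push_cast
  ring

lemma sum_A_quarter (n M : ℕ) (h : n ≤ M) :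
    ∑ k ∈ range n, (2 * (k : ℚ) + 1) * (-1) ^ k * A k (1 / 4 : ℚ) =
      -(-1) ^ n * H n M := by
  induction n with
  | zero => simp [H, hh_zero]
  | succ n ih =>
    rw [sum_range_succ, ih (by omega)]
    have := H_rec n M (by omega)
    rw [pow_succ]
    linear_combination (-(-1) ^ n) * this

/-- The integer `q(n,k)` -/
def q (n k : ℕ) : ℤ :=
  ((n.choose (k + 1) : ℤ) * ((n + k).choose k : ℤ)) *
    (3 * (((n - 1).choose k : ℤ) * ((n + k).choose k : ℤ)) -
      (n.choose (k + 1) : ℤ) * ((n + k).choose (k + 1) : ℤ))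

lemma hh_eq (n k : ℕ) (hn : 0 < n) :
    hh n k = (n : ℚ) ^ 2 * ((2 * q n k : ℤ) * (1 / 4) ^ (k + 1)) := by
  obtain ⟨N, rfl⟩ : ∃ N, n = N + 1 := ⟨n - 1, by omega⟩
  have e1 := choose_succ_q (N + 1) k
  have e2 := choose_top_q N k
  have e3 := choose_succ_q (N + 1 + k) k
  have hk : ((k : ℚ) + 1) ≠ 0 := by positivity
  have hN : ((N : ℚ) + 1) ≠ 0 := by positivity
  simp only [q, hh, b, Nat.add_sub_cancel]
  push_cast
  push_cast at e1 e2 e3
  set u : ℚ := ((N + 1).choose k : ℚ)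
  set v : ℚ := ((N + 1 + k).choose k : ℚ)
  have f1 : ((N + 1).choose (k + 1) : ℚ) = ((N : ℚ) + 1 - k) * u / ((k : ℚ) + 1) := by
    rw [eq_div_iff hk]; linear_combination e1
  have f2 : (N.choose k : ℚ) = ((N : ℚ) + 1 - k) * u / ((N : ℚ) + 1) := by
    rw [eq_div_iff hN]; linear_combination -e2
  have f3 : ((N + 1 + k).choose (k + 1) : ℚ) = ((N : ℚ) + 1) * v / ((k : ℚ) + 1) := by
    rw [eq_div_iff hk]; linear_combination e3
  rw [f1, f2, f3, one_div, inv_pow]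
  have h4 : (4 : ℚ) ^ (k + 1) ≠ 0 := by positivity
  field_simp

lemma value_A (n : ℕ) (hn : 0 < n) :
    ∑ k ∈ range n, (2 * (k : ℚ) + 1) * (-1) ^ k * A k (1 / 4 : ℚ) =
      (n : ℚ) ^ 2 * aeval (1 / 4 : ℚ)
        (∑ k ∈ range n, ((-(-1) ^ n * (2 * q n k) : ℤ) : ℤ[X]) * X ^ (k + 1)) := by
  rw [sum_A_quarter n n le_rfl, H, map_sum, mul_sum, mul_sum]
  refine sum_congr rfl fun k _ => ?_
  rw [hh_eq n k hn]
  simp only [map_mul, map_pow, aeval_X, map_intCast]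
  push_cast
  ring

/-! ### The value at `-1/4` of the sum of the `D_k^3` -/

lemma D_rec (n : ℕ) (x : ℚ) :
    ((n : ℚ) + 2) * D (n + 2) x + (n + 1) * D n x = (2 * n + 3) * ((1 + 2 * x) * D (n + 1) x) := by
  have key : ∀ i : ℕ, ((n : ℚ) + 2) * (b (i + 1) (n + 2) : ℚ) + (n + 1) * (b (i + 1) n : ℚ) =
      (2 * n + 3) * ((b (i + 1) (n + 1) : ℚ) + 2 * (b i (n + 1) : ℚ)) := by
    intro i
    have e1 := b_top_q n i
    have e2 := b_top_q (n + 1) i
    have e5 := b_succ_q i n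
    have e6 := b_succ_q i (n + 1)
    have e7 := b_succ_q i (n + 2)
    have hi : ((i : ℚ) + 1) ^ 2 ≠ 0 := by positivity
    push_cast at *
    apply mul_left_cancel₀ hi
    rw [show n + 1 + 1 = n + 2 by ring] at e2
    linear_combination ((n : ℚ) + 2) * (e7 + ((n : ℚ) + 3 + i) * e2) +
      ((n : ℚ) + 1) * (e5 - ((n : ℚ) - i) * e1) - (2 * (n : ℚ) + 3) * e6
  rw [add_mul 1 (2 * x), one_mul, D_eq (n + 2) (n + 3 + 1) (by omega),
    D_eq n (n + 3 + 1) (by omega)]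
  have h2 : 2 * x * D (n + 1) x = ∑ i ∈ range (n + 3), 2 * ((b i (n + 1) : ℤ) : ℚ) * x ^ (i + 1) := by
    rw [D_eq (n + 1) (n + 3) (by omega), mul_sum]
    refine sum_congr rfl fun i _ => by ring
  rw [h2, D_eq (n + 1) (n + 3 + 1) (by omega)]
  simp only [sum_range_succ' _ (n + 3), b_zero]
  simp only [mul_add, mul_sum]
  have h3 : ∀ i ∈ range (n + 3), ((n : ℚ) + 2) * ((b (i + 1) (n + 2) : ℚ) * x ^ (i + 1)) =
      (2 * n + 3) * ((b (i + 1) (n + 1) : ℚ) * x ^ (i + 1)) +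
      (2 * n + 3) * (2 * (b i (n + 1) : ℚ) * x ^ (i + 1)) -
      ((n : ℚ) + 1) * ((b (i + 1) n : ℚ) * x ^ (i + 1)) := by
    intro i _
    linear_combination (x ^ (i + 1)) * key i
  rw [sum_congr rfl h3, sum_sub_distrib, sum_add_distrib]
  push_cast
  ring

lemma D_zero (x : ℚ) : D 0 x = 1 := by simp [D]

lemma D_one (x : ℚ) : D 1 x = 1 + 2 * x := by
  simp [D, sum_range_succ]

lemma sum_D_quarter (n : ℕ) :
    ∑ k ∈ range (n + 1), (2 * (k : ℚ) + 1) * (-1) ^ k * D k (-1 / 4 : ℚ) ^ 3 =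
      ((n : ℚ) + 1) ^ 2 * (4 * (-1) ^ (n + 1) * D (n + 1) (-1 / 4 : ℚ) * D n (-1 / 4 : ℚ) *
        (D (n + 1) (-1 / 4 : ℚ) - D n (-1 / 4 : ℚ))) := by
  induction n with
  | zero => norm_num [D_zero, D_one]
  | succ n ih =>
    rw [sum_range_succ, ih]
    have h := D_rec n (-1 / 4)
    rw [show n + 1 + 1 = n + 2 by ring]
    generalize D (n + 2) (-1 / 4 : ℚ) = a at *
    generalize D (n + 1) (-1 / 4 : ℚ) = u at *
    generalize D n (-1 / 4 : ℚ) = c at *
    push_cast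
    rw [pow_succ (-1 : ℚ) (n + 1)]
    generalize ((-1 : ℚ) ^ (n + 1)) = s at *
    linear_combination (s * u * (4 * (((n : ℚ) + 2) * a - ((n : ℚ) + 1) * c) - 2 * u)) * h

/-! ### Valuations -/

lemma addVal_int_nonneg {p : ℕ} [Fact p.Prime] (u : ℤ_[p]) :
    0 ≤ Padic.addValuation (u : ℚ_[p]) := by
  by_cases hu : (u : ℚ_[p]) = 0
  · rw [hu, AddValuation.map_zero]
    exact le_top
  · rw [Padic.addValuation.apply hu]
    have h1 : ‖(u : ℚ_[p])‖ ≤ 1 := u.2
    rw [Padic.norm_le_one_iff_val_nonneg] at h1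
    exact_mod_cast h1

lemma val_bound {p : ℕ} [Fact p.Prime] (n : ℕ) (y U V : ℤ_[p]) :
    min (Padic.addValuation (n : ℚ_[p])) (Padic.addValuation (y : ℚ_[p])) ≤
      Padic.addValuation (((n * U + y * V : ℤ_[p])) : ℚ_[p]) := by
  push_cast
  refine le_trans ?_ (Padic.addValuation.map_add _ _)
  rw [AddValuation.map_mul, AddValuation.map_mul]
  have hU := addVal_int_nonneg U
  have hV := addVal_int_nonneg V
  exact min_le_min (le_add_of_nonneg_right hU) (le_add_of_nonneg_right hV)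

/-- **Both valuation inequalities of Z.-W. Sun.** -/
theorem result :
    (∀ (p : ℕ) [Fact p.Prime] (n : ℕ), 0 < n → ∀ x : ℤ_[p],
      min (Padic.addValuation (n : ℚ_[p])) (Padic.addValuation (4 * (x : ℚ_[p]) - 1)) ≤
        Padic.addValuation ((1 / (n : ℚ_[p])) *
          ∑ k ∈ range n, (2 * (k : ℚ_[p]) + 1) * (-1) ^ k * A k (x : ℚ_[p]))) ∧
    (∀ (p : ℕ) [Fact p.Prime] (n : ℕ), 0 < n → ∀ x : ℤ_[p],
      min (Padic.addValuation (n : ℚ_[p])) (Padic.addValuation (4 * (x : ℚ_[p]) + 1)) ≤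
        Padic.addValuation ((1 / (n : ℚ_[p])) *
          ∑ k ∈ range n, (2 * (k : ℚ_[p]) + 1) * (-1) ^ k * D k (x : ℚ_[p]) ^ 3)) := by
  constructor
  · intro p _ n hn x
    have hnp : (n : ℚ_[p]) ≠ 0 := by exact_mod_cast hn.ne'
    have hnq : (n : ℚ) ≠ 0 := by exact_mod_cast hn.ne'
    obtain ⟨P, hP⟩ := exists_P_A n
    have h1 : aeval ((((1 : ℤ) : ℚ)) / 4) P = n * aeval ((((1 : ℤ) : ℚ)) / 4)
        (∑ k ∈ range n, ((-(-1) ^ n * (2 * q n k) : ℤ) : ℤ[X]) * X ^ (k + 1)) := by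
      rw [Int.cast_one]
      have h2 := congrArg (aeval (1 / 4 : ℚ)) hP
      rw [map_mul, map_natCast, map_sum] at h2
      simp only [map_mul, map_add, map_pow, map_neg, map_one, map_ofNat, map_natCast,
        aeval_Ap] at h2
      rw [value_A n hn] at h2
      apply mul_left_cancel₀ hnq
      rw [h2]
      ring
    obtain ⟨U, V, hUV⟩ := key P _ 1 (by norm_num) n h1 x
    have h3 : (1 / (n : ℚ_[p])) *
          ∑ k ∈ range n, (2 * (k : ℚ_[p]) + 1) * (-1) ^ k * A k (x : ℚ_[p]) =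
        (((n : ℤ_[p]) * U + (4 * x - 1) * V : ℤ_[p]) : ℚ_[p]) := by
      have h4 := congrArg (aeval (x : ℚ_[p])) hP
      rw [map_mul, map_natCast, map_sum] at h4
      simp only [map_mul, map_add, map_pow, map_neg, map_one, map_ofNat, map_natCast,
        aeval_Ap] at h4
      rw [← h4, ← mul_assoc, one_div_mul_cancel hnp, one_mul]
      have h5 := aeval_algebraMap_apply ℚ_[p] x P
      rw [hUV, Int.cast_one] at h5
      exact h5
    rw [h3]
    have h6 := val_bound n (4 * x - 1) U V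
    push_cast at h6 ⊢
    exact h6
  · intro p _ n hn x
    have hnp : (n : ℚ_[p]) ≠ 0 := by exact_mod_cast hn.ne'
    have hnq : (n : ℚ) ≠ 0 := by exact_mod_cast hn.ne'
    obtain ⟨P, hP⟩ := exists_P_D n
    obtain ⟨N, rfl⟩ : ∃ N, n = N + 1 := ⟨n - 1, by omega⟩
    have h1 : aeval ((((-1 : ℤ) : ℚ)) / 4) P = ((N + 1 : ℕ) : ℚ) * aeval ((((-1 : ℤ) : ℚ)) / 4)
        (4 * (-1) ^ (N + 1) * Dp (N + 1) * Dp N * (Dp (N + 1) - Dp N)) := by
      have h2 := congrArg (aeval (((-1 : ℤ) : ℚ) / 4 : ℚ)) hP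
      rw [map_mul, map_natCast, map_sum] at h2
      simp only [map_mul, map_add, map_sub, map_pow, map_neg, map_one, map_ofNat, map_natCast,
        aeval_Dp] at h2 ⊢
      rw [Int.cast_neg, Int.cast_one] at h2 ⊢
      rw [sum_D_quarter N] at h2
      apply mul_left_cancel₀ hnq
      rw [h2]
      push_cast
      ring
    obtain ⟨U, V, hUV⟩ := key P _ (-1) (by norm_num) (N + 1) h1 x
    have h3 : (1 / ((N + 1 : ℕ) : ℚ_[p])) *
          ∑ k ∈ range (N + 1), (2 * (k : ℚ_[p]) + 1) * (-1) ^ k * D k (x : ℚ_[p]) ^ 3 =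
        ((((N + 1 : ℕ) : ℤ_[p]) * U + (4 * x + 1) * V : ℤ_[p]) : ℚ_[p]) := by
      have h4 := congrArg (aeval (x : ℚ_[p])) hP
      rw [map_mul, map_natCast, map_sum] at h4
      simp only [map_mul, map_add, map_pow, map_neg, map_one, map_ofNat, map_natCast,
        aeval_Dp] at h4
      rw [← h4, ← mul_assoc, one_div_mul_cancel hnp, one_mul]
      have h5 := aeval_algebraMap_apply ℚ_[p] x P
      rw [hUV, Int.cast_neg, Int.cast_one, sub_neg_eq_add] at h5
      exact h5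
    rw [h3]
    have h6 := val_bound (N + 1) (4 * x + 1) U V
    push_cast at h6 ⊢
    exact h6

end Pool.Agent.Results.MP_2869d0_nt.WeightedAlternatingSums
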